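import Mathlib
import Pool.Agent.W560.HP.Stm

/-! The Hilbert property of a function field is invariant under isomorphism. -/

set_option autoImplicit false

open Polynomial

namespace Pool.Agent.W74.HP

open W560.HP

theorem hpi : S_HPI := by
  classical
  rintro k K K' _ _ _ _ _ ⟨e⟩ h q P hP S
  set es : K' →+* K := (e.symm : K' ≃+* K).toRingHom with hes
  set ee : K →+* K' := (e : K ≃+* K').toRingHom with hee
  have hee1 : ee.comp es = RingHom.id K' := by
    ext x
    exact e.apply_symm_apply x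
  have hmm : ∀ p : K'[X], (p.map es).map ee = p := by
    intro p
    rw [Polynomial.map_map, hee1, Polynomial.map_id]
  obtain ⟨B₀, φ₀, P₀, hS, hP₀, hφ⟩ := h q (fun j => (P j).map es) (fun j x hx => by
    apply hP j (ee x)
    rw [← hmm (P j), Polynomial.eval_map_apply, hx, map_zero]) (S.image es)
  set eB := e.subalgebraMap B₀ with heB
  set rB : ↥B₀ →+* ↥(B₀.map (e : K →ₐ[k] K')) := (eB.toAlgHom : ↥B₀ →ₐ[k] _).toRingHom with hrB
  set φ : ↥(B₀.map (e : K →ₐ[k] K')) →ₐ[k] k := φ₀.comp eB.symm.toAlgHom with hφd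
  refine ⟨B₀.map (e : K →ₐ[k] K'), φ, fun j => (P₀ j).map rB, ?_, ?_, ?_⟩
  · intro s hs
    refine ⟨es s, hS ?_, e.apply_symm_apply s⟩
    rw [Finset.coe_image]
    exact ⟨s, hs, rfl⟩
  · intro j
    rw [← hmm (P j), ← hP₀ j, Polynomial.map_map, Polynomial.map_map]
    rfl
  · intro j x
    rw [Polynomial.map_map]
    have : (φ : ↥(B₀.map (e : K →ₐ[k] K')) →+* k).comp rB = (φ₀ : B₀ →+* k) := by
      ext b
      show φ₀ (eB.symm (eB b)) = φ₀ b
      rw [eB.symm_apply_apply]
    rw [this]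
    exact hφ j x

end Pool.Agent.W74.HP
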