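import Pool.Agent.W743.HP.Stm

/-!
# HP-TOP
-/

open Set Filter Topology

namespace Pool.Agent.W74.HP

open Pool.Agent.W743.HP

theorem cd_eq : cd = Metric.closedBall (0 : ℂ) (Real.sqrt (1 / 2)) := by
  ext z
  simp only [cd, mem_ofPred_eq, Metric.mem_closedBall, dist_zero_right]
  rw [Real.le_sqrt (norm_nonneg _) (by norm_num)]

theorem od_eq : od = Metric.ball (0 : ℂ) (Real.sqrt (1 / 2)) := by
  ext z
  simp only [od, mem_ofPred_eq, Metric.mem_ball, dist_zero_right]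
  rw [Real.lt_sqrt (norm_nonneg _)]

theorem sqrt_pos : 0 < Real.sqrt (1 / 2) := Real.sqrt_pos.2 (by norm_num)

theorem closure_od : closure od = cd := by
  rw [od_eq, cd_eq]
  exact closure_ball 0 sqrt_pos.ne'

theorem cd_sub : cd ⊆ Metric.ball (0 : ℂ) 1 := by
  intro z hz
  rw [cd_eq, Metric.mem_closedBall] at hz
  rw [Metric.mem_ball]
  refine hz.trans_lt ?_
  rw [Real.sqrt_lt' one_pos]
  norm_num

theorem od_sub_cd : od ⊆ cd := by
  intro z hz
  rw [od_eq] at hz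
  rw [cd_eq]
  exact Metric.ball_subset_closedBall hz

theorem annulus (R : ℝ) (hR : 1 < R) :
    IsConnected {z : ℂ | 1 / 2 < ‖z‖ ^ 2 ∧ ‖z‖ < R} := by
  have h1 : Real.sqrt (1 / 2) < R := by
    refine lt_trans ?_ hR
    rw [Real.sqrt_lt' one_pos]
    norm_num
  have h2 : IsConnected (Ioo (Real.sqrt (1 / 2)) R ×ˢ (univ : Set ℝ)) :=
    (isConnected_Ioo h1).prod isConnected_univ
  have h3 : {z : ℂ | 1 / 2 < ‖z‖ ^ 2 ∧ ‖z‖ < R} =
      (fun p : ℝ × ℝ => (p.1 : ℂ) * Complex.exp (p.2 * Complex.I)) ''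
        (Ioo (Real.sqrt (1 / 2)) R ×ˢ (univ : Set ℝ)) := by
    ext z
    simp only [mem_ofPred_eq, mem_image, mem_prod, mem_Ioo, mem_univ, and_true, Prod.exists]
    constructor
    · rintro ⟨h3, h4⟩
      refine ⟨‖z‖, Complex.arg z, ⟨?_, h4⟩, Complex.norm_mul_exp_arg_mul_I z⟩
      rw [Real.sqrt_lt (by norm_num) (norm_nonneg _)]
      exact h3
    · rintro ⟨a, b, ⟨h3, h4⟩, rfl⟩
      have ha : 0 < a := sqrt_pos.trans h3
      have h5 : ‖(a : ℂ) * Complex.exp (b * Complex.I)‖ = a := by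
        rw [norm_mul, Complex.norm_exp_ofReal_mul_I, mul_one, Complex.norm_real,
          Real.norm_eq_abs, abs_of_pos ha]
      rw [h5]
      refine ⟨?_, h4⟩
      rwa [Real.sqrt_lt (by norm_num) ha.le] at h3
  rw [h3]
  refine h2.image _ (Continuous.continuousOn ?_)
  fun_prop

theorem top : S_INJ → S_HOM → S_CAY → S_TOP := by
  intro hinj hhom hcay f hf
  obtain ⟨Ψ, hΨ⟩ := hcay
  obtain ⟨-, hf1⟩ := hinj f hf
  obtain ⟨Φ, t, ht0, ht1, hΦ, hΦt⟩ := hhom f hf
  -- transport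
  have tr : ∀ S : Set ℂ, S ⊆ cd → (fun z => cay (f z)) '' S =
      Ψ '' ((Subtype.val : Metric.ball (0 : ℂ) 1 → ℂ) ⁻¹' (Φ '' S)) := by
    intro S hS
    ext τ
    constructor
    · rintro ⟨z, hz, rfl⟩
      have h1 : f z ∈ Metric.ball (0 : ℂ) 1 := by
        rw [Metric.mem_ball, dist_zero_right]
        exact hf1 z (cd_sub (hS hz))
      refine ⟨⟨f z, h1⟩, ⟨z, hz, hΦ z (hS hz)⟩, ?_⟩
      rw [hΨ]
    · rintro ⟨w, ⟨z, hz, hzw⟩, rfl⟩
      refine ⟨z, hz, ?_⟩
      simp only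
      rw [hΨ, ← hzw, hΦ z (hS hz)]
  have hball : ∀ z : ℂ, ‖Φ z‖ < 1 ↔ ‖z‖ < 1 / t := by
    intro z
    have h1t : 1 < 1 / t := by
      rw [lt_div_iff₀ ht0, one_mul]
      exact ht1
    rcases le_or_gt 1 ‖z‖ with hz | hz
    · rw [hΦt z hz, norm_mul, Complex.norm_real, Real.norm_eq_abs, abs_of_pos ht0,
        lt_div_iff₀ ht0, mul_comm]
    · refine ⟨fun _ => hz.trans h1t, fun _ => ?_⟩
      by_contra hcon
      push Not at hcon
      have ht0' : (t : ℂ) ≠ 0 := Complex.ofReal_ne_zero.2 ht0.ne'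
      have h2 : 1 ≤ ‖Φ z / t‖ := by
        rw [norm_div, Complex.norm_real, Real.norm_eq_abs, abs_of_pos ht0, le_div_iff₀ ht0]
        nlinarith
      have h3 := hΦt _ h2
      rw [mul_div_cancel₀ _ ht0'] at h3
      have h4 := Φ.injective h3
      rw [h4] at h2
      exact absurd h2 (not_le.2 hz)
  have hval : ∀ S : Set ℂ, (∀ z ∈ S, ‖z‖ < 1 / t) →
      (Subtype.val : Metric.ball (0 : ℂ) 1 → ℂ) '' (Subtype.val ⁻¹' (Φ '' S)) = Φ '' S := by
    intro S hS
    rw [Subtype.image_preimage_val]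
    apply Set.inter_eq_self_of_subset_right
    rintro _ ⟨z, hz, rfl⟩
    rw [Metric.mem_ball, dist_zero_right]
    exact (hball z).2 (hS z hz)
  have h1t : 1 < 1 / t := by
    rw [lt_div_iff₀ ht0, one_mul]
    exact ht1
  have hcd : ∀ z ∈ cd, ‖z‖ < 1 / t := by
    intro z hz
    have := cd_sub hz
    rw [Metric.mem_ball, dist_zero_right] at this
    exact this.trans h1t
  have hod : ∀ z ∈ od, ‖z‖ < 1 / t := fun z hz => hcd z (od_sub_cd hz)
  have hopen : IsOpen (Φ '' od) := by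
    rw [Φ.isOpen_image, od_eq]
    exact Metric.isOpen_ball
  have hcomp : IsCompact ((Subtype.val : Metric.ball (0 : ℂ) 1 → ℂ) ⁻¹' (Φ '' cd)) := by
    rw [IsInducing.subtypeVal.isCompact_iff, hval cd hcd]
    refine IsCompact.image ?_ Φ.continuous
    rw [cd_eq]
    exact isCompact_closedBall _ _
  have hconn : ∀ S : Set ℂ, (∀ z ∈ S, ‖z‖ < 1 / t) → IsConnected S →
      IsConnected (Ψ '' ((Subtype.val : Metric.ball (0 : ℂ) 1 → ℂ) ⁻¹' (Φ '' S))) := by
    intro S hS hc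
    refine IsConnected.image ?_ _ Ψ.continuous.continuousOn
    constructor
    · obtain ⟨z, hz⟩ := hc.nonempty
      have h2 : Φ z ∈ Metric.ball (0 : ℂ) 1 := by
        rw [Metric.mem_ball, dist_zero_right]
        exact (hball z).2 (hS z hz)
      exact ⟨⟨Φ z, h2⟩, z, hz, rfl⟩
    · rw [← IsInducing.subtypeVal.isPreconnected_image, hval S hS]
      exact hc.isPreconnected.image _ Φ.continuous.continuousOn
  have hodc : IsConnected od := by
    rw [od_eq]
    exact ⟨⟨0, Metric.mem_ball_self sqrt_pos⟩, (convex_ball _ _).isPreconnected⟩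
  refine ⟨?_, ?_, ?_, ?_, ?_⟩
  · rw [tr od od_sub_cd, Ψ.isOpen_image]
    exact hopen.preimage continuous_subtype_val
  · rw [tr od od_sub_cd]
    exact hconn od hod hodc
  · rw [tr od od_sub_cd]
    refine (hcomp.image Ψ.continuous).isBounded.subset ?_
    exact image_mono (preimage_mono (image_mono od_sub_cd))
  · rw [tr od od_sub_cd, tr cd subset_rfl, ← Ψ.image_closure]
    congr 1
    rw [IsInducing.subtypeVal.closure_eq_preimage_closure_image, hval od hod, ← Φ.image_closure,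
      closure_od]
  · rw [tr cd subset_rfl, ← Set.image_compl_eq Ψ.bijective, ← Set.preimage_compl,
      ← Set.image_compl_eq Φ.bijective]
    have h2 : (Subtype.val : Metric.ball (0 : ℂ) 1 → ℂ) ⁻¹' (Φ '' cdᶜ) =
        Subtype.val ⁻¹' (Φ '' {z : ℂ | 1 / 2 < ‖z‖ ^ 2 ∧ ‖z‖ < 1 / t}) := by
      ext w
      simp only [mem_preimage, mem_image, mem_compl_iff, mem_ofPred_eq, cd, not_le]
      constructor
      · rintro ⟨z, hz, hzw⟩
        refine ⟨z, ⟨hz, ?_⟩, hzw⟩
        rw [← hball, hzw]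
        have := w.2
        rwa [Metric.mem_ball, dist_zero_right] at this
      · rintro ⟨z, hz, hzw⟩
        exact ⟨z, hz.1, hzw⟩
    rw [h2]
    exact hconn _ (fun z hz => hz.2) (annulus _ h1t)

end Pool.Agent.W74.HP
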